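import Mathlib
import Pool.Agent.W_MP_e5a79a_an.Defs
import Pool.Agent.W_MP_e5a79a_an.Main

set_option autoImplicit false

namespace Pool.Agent.Results.MP_e5a79a_an.PendulumCounterexample

open Filter Topology Pool.Agent.W_MP_e5a79a_an

/-- In every dimension `n ≥ 1` there is a Tonelli Hamiltonian `H` on `𝕋ⁿ × ℝⁿ` with
`π(𝒜₀) = 𝕋ⁿ` and a viscosity solution `u` of `H(x,Du) = α(0)` unique up to constants, together with
nonzero `c_j → 0` such that for every choice of viscosity solutions `v` of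
`H_{c_j}(x, Dv) = α(c_j)` the norm `‖Dv - Du‖_{Lip(π(𝒜_{c_j}))}` is at least `ε > 0`. -/
theorem result (n : ℕ) (hn : 1 ≤ n) :
    ∃ (H : Eu n → Eu n → ℝ) (α₀ : ℝ) (u : Eu n → ℝ),
      IsTonelli H ∧
      IsCriticalValue (twist H 0) α₀ ∧
      aubry (twist H 0) α₀ = Set.univ ∧
      IsViscositySolution (twist H 0) α₀ u ∧
      (∀ w : Eu n → ℝ, IsViscositySolution (twist H 0) α₀ w → ∃ C : ℝ, ∀ x, w x = u x + C) ∧
      ∃ (ε : ℝ) (c : ℕ → Eu n) (α : ℕ → ℝ),
        0 < ε ∧ (∀ j, c j ≠ 0) ∧ Tendsto c atTop (𝓝 0) ∧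
        (∀ j, IsCriticalValue (twist H (c j)) (α j)) ∧
        ∀ (j : ℕ) (v : Eu n → ℝ), IsViscositySolution (twist H (c j)) (α j) v →
          ENNReal.ofReal ε ≤ lipNorm (aubry (twist H (c j)) (α j))
            (fun x => gradient v x - gradient u x) := by
  obtain ⟨m, rfl⟩ : ∃ m, n = m + 1 := ⟨n - 1, by omega⟩
  exact main m

end Pool.Agent.Results.MP_e5a79a_an.PendulumCounterexample
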